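import Pool.Agent.V8H44.Sp.UnivS

/-!
# One sentence decides whether all spectra are rudimentary

`Spec φ`: the set of the sizes of the finite nonempty models of `φ`.  `IsRud A`: `A` is a rudimentary
set.  `close w ψ`: the sentence `Q₀ x₀ … Q_{n-1} x_{n-1} ψ` with the quantifier prefix `w`
(`true` stands for `∀`).  `LB I J`: the language with unary symbols indexed by `I` and binary symbols
indexed by `J`.  `Contains w u`: the prefix `u` is a subsequence of the prefix `w`.

For every prefix `w` which contains `∀∃∀` or `∀∀∀∃` there is one single sentence with the prefix `w`
in a finite language of unary and binary relation symbols which is complete: the spectrum of every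
first-order sentence is the set of the positive integers which a polynomial sends into the spectrum
of the complete sentence.  So all spectra are rudimentary if and only if this one spectrum is.
-/

set_option autoImplicit false

namespace Pool.Agent.Results.MP_023469_lc.CompleteSpectrum

open Pool.Agent.V8H44.Sp

/-- **A complete spectrum.** -/
theorem result :
    ∀ (n : ℕ) (w : Fin n → Bool),
      Contains w ![true, false, true] ∨ Contains w ![true, true, true, false] →
      ∃ (I J : Type) (_ : Finite I) (_ : Finite J) (ψ : (LB I J).BoundedFormula Empty n), ψ.IsQF ∧
        (∀ (L : FirstOrder.Language.{0, 0}) (φ : L.Sentence), ∃ p : Polynomial ℕ,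
          ∀ m, 0 < m → (m ∈ Spec φ ↔ p.eval m ∈ Spec (close w ψ))) ∧
        ((∀ (L : FirstOrder.Language.{0, 0}) (φ : L.Sentence), IsRud (Spec φ)) ↔
          IsRud (Spec (close w ψ))) :=
  fun _ w hw => complete_prefix w hw

end Pool.Agent.Results.MP_023469_lc.CompleteSpectrum
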