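import Pool.Agent.V8H44.Sp.AAE5

/-!
# Spectra of sentences with the quantifier prefix `∀∀∃`

`Spec φ`: the set of the sizes of the finite nonempty models of `φ`.  `IsRud A`: `A` is a rudimentary
set.  `close w ψ`: the sentence `Q₀ x₀ … Q_{n-1} x_{n-1} ψ` with the quantifier prefix `w`
(`true` stands for `∀`).  `LB I J`: the language with unary symbols indexed by `I` and binary symbols
indexed by `J`.  `IsPrefSpec w A`: `A` is the spectrum of a sentence with the prefix `w` and a
quantifier free matrix in such a finite language (with equality).  `Contains w u`: the prefix `u` is a
subsequence of the prefix `w`.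

The prefix `∀∀∃` (the minimal Gödel class with identity) is as hard as all of first-order logic: for
every first-order sentence `φ` there is a `k` such that the numbers `m ^ (2 k) + 2 m ^ k + 2` with
`m` in the spectrum of `φ` are the spectrum of a `∀∀∃`-sentence, and there is one single
`∀∀∃`-sentence whose spectrum is complete.  The same holds for all prefixes which contain `∀∀∃`.

The idea.  The models have to be rigid although only pairs of elements can be compared.  The models
consist of numbers and of pairs of numbers of two sorts, and a false claim about the predecessor of a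
number, or about a coordinate of a pair, is refuted by a counting process which runs through pairs of
the other sort whose second coordinate increases from zero.  By induction all the numbers, and then
all the pairs, are standard.
-/

set_option autoImplicit false

namespace Pool.Agent.Results.MP_023469_lc.GodelPrefix

open Pool.Agent.V8H44.Sp

/-- **The prefix `∀∀∃`.** -/
theorem result :
    ∀ (n : ℕ) (w : Fin n → Bool), Contains w ![true, true, false] →
      (∀ (L : FirstOrder.Language.{0, 0}) (φ : L.Sentence),
        ∃ k, 0 < k ∧ IsPrefSpec w {N | ∃ m ∈ Spec φ, N = m ^ k * m ^ k + 2 * m ^ k + 2}) ∧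
      ∃ (I J : Type) (_ : Finite I) (_ : Finite J) (ψ : (LB I J).BoundedFormula Empty n), ψ.IsQF ∧
        (∀ (L : FirstOrder.Language.{0, 0}) (φ : L.Sentence), ∃ p : Polynomial ℕ,
          ∀ m, 0 < m → (m ∈ Spec φ ↔ p.eval m ∈ Spec (close w ψ))) ∧
        ((∀ (L : FirstOrder.Language.{0, 0}) (φ : L.Sentence), IsRud (Spec φ)) ↔
          IsRud (Spec (close w ψ))) :=
  fun _ w hw => ⟨fun _ φ => spec_AAE w hw φ, complete_AAE w hw⟩

end Pool.Agent.Results.MP_023469_lc.GodelPrefix
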