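import Pool.Agent.V8H44.PS.Fin

/-!
# Spectra of pairs of orders and equivalence relations

`Spec φ`: the set of the sizes of the finite nonempty models of `φ`.  `IsRud A`: `A` is a rudimentary
set.  `LP`: the language with two binary relation symbols.  `PairSpec k ψ`: the set of the sizes of
the finite nonempty models of `ψ` in which the two relations are, for `k = ll`, two strict linear
orders, for `k = le`, a strict linear order and an equivalence relation, for `k = ee`, two equivalence
relations.

For each of the three kinds: every spectrum of a first-order sentence is, up to a polynomial
`a x ^ 2 + b x` with `x = m ^ e`, the set of the sizes of the pairs in which some sentence is true;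
all spectra are rudimentary if and only if the spectra of the pairs are; and there is one single
complete sentence.

The idea.  A tiling of the square of side `N` is a matrix of colours.  The classes of the first
relation are the rows, the classes of the second relation are the columns, and the number of
elements of a cell is the colour of the entry.  The size does not depend on the tiling since every
row has a partner with the complementary numbers of elements.  For linear orders the rows and the
columns are intervals between separating elements.
-/

set_option autoImplicit false

namespace Pool.Agent.Results.MP_023469_lc.PairSpectra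

open Pool.Agent.V8H44.Sp Pool.Agent.V8H44.PS

/-- **Pairs of linear orders or equivalence relations.** -/
theorem result : ∀ k : Kind,
    (∀ (L : FirstOrder.Language.{0, 0}) (φ : L.Sentence),
      ∃ (a b e : ℕ) (ψ : LP.Sentence), 0 < a ∧ 0 < e ∧
        PairSpec k ψ = {n | ∃ m ∈ Spec φ, n = a * (m ^ e) ^ 2 + b * m ^ e}) ∧
    ((∀ (L : FirstOrder.Language.{0, 0}) (φ : L.Sentence), IsRud (Spec φ)) ↔
      ∀ ψ : LP.Sentence, IsRud (PairSpec k ψ)) ∧
    ∃ Ψ : LP.Sentence,
      (∀ (L : FirstOrder.Language.{0, 0}) (φ : L.Sentence), ∃ p : Polynomial ℕ,
        ∀ m, 0 < m → (m ∈ Spec φ ↔ p.eval m ∈ PairSpec k Ψ)) ∧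
      ((∀ (L : FirstOrder.Language.{0, 0}) (φ : L.Sentence), IsRud (Spec φ)) ↔
        IsRud (PairSpec k Ψ)) :=
  main

end Pool.Agent.Results.MP_023469_lc.PairSpectra
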