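import Pool.Agent.V8H44.Sp.Triv

/-!
# Rudimentary sets and the spectra of sentences with a given quantifier prefix

`Spec φ`: the set of the sizes of the finite nonempty models of `φ`.  `IsRud A`: `A` is a rudimentary
set.  `close w ψ`: the sentence `Q₀ x₀ … Q_{n-1} x_{n-1} ψ` with the quantifier prefix `w`
(`true` stands for `∀`).  `IsPrefSpec w A`: `A` is the spectrum of such a sentence with quantifier
free `ψ` in a finite language with unary and binary relation symbols and equality.
`Contains w u`: the prefix `u` is a subsequence of the prefix `w`.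

The spectra of all first-order sentences are rudimentary if and only if the spectra of the sentences
with the prefix `w` are rudimentary, for every prefix `w` which contains `∀∃∀` or `∀∀∀∃`; if `w`
contains neither `∀∃∀` nor `∀∀∃` then all spectra of sentences with prefix `w` (in any relational
language) are finite or cofinite.  The prefixes `∃ᵖ∀∀∃^q` with `q ≥ 1` are the only ones which are
not covered.
-/

set_option autoImplicit false

namespace Pool.Agent.Results.MP_023469_lc.PrefixClasses

open Pool.Agent.V8H44.Sp

/-- **Prefix classes.** -/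
theorem result :
    (∀ (n : ℕ) (w : Fin n → Bool),
      Contains w ![true, false, true] ∨ Contains w ![true, true, true, false] →
      (∀ (L : FirstOrder.Language.{0, 0}) (φ : L.Sentence),
        ∃ k, 0 < k ∧ IsPrefSpec w {N | ∃ m ∈ Spec φ, N = m ^ k}) ∧
      ((∀ (L : FirstOrder.Language.{0, 0}) (φ : L.Sentence), IsRud (Spec φ)) ↔
        ∀ A, IsPrefSpec w A → IsRud A)) ∧
    (∀ (n : ℕ) (w : Fin n → Bool),
      ¬ Contains w ![true, false, true] → ¬ Contains w ![true, true, false] →
      ∀ (L : FirstOrder.Language.{0, 0}) [L.IsRelational] (ψ : L.BoundedFormula Empty n), ψ.IsQF →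
        (Spec (close w ψ)).Finite ∨ (Spec (close w ψ))ᶜ.Finite) := by
  refine ⟨fun n w hw => ⟨fun L φ => ?_, hard_prefix w hw⟩, fun n w h1 h2 L _ ψ hψ =>
    easy_prefix w h1 h2 ψ hψ⟩
  obtain ⟨k, T, hk, hT⟩ := exists_tileSys φ
  refine ⟨k, hk, ?_⟩
  have hP : IsPrefSpec w {N | 0 < N ∧ T.Sol N} := by
    rcases hw with hw | hw
    · exact (tile_AEA T).embed hw
    · exact (tile_AAAE T).embed hw
  have : {N | 0 < N ∧ T.Sol N} = {N | ∃ m ∈ Spec φ, N = m ^ k} := by
    ext N
    constructor
    · rintro ⟨h1, h2⟩
      exact (hT N h1).1 h2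
    · rintro ⟨m, hm, rfl⟩
      have h4 : 0 < m ^ k := Nat.pow_pos hm.1
      exact ⟨h4, (hT _ h4).2 ⟨m, hm, rfl⟩⟩
  rw [← this]
  exact hP

end Pool.Agent.Results.MP_023469_lc.PrefixClasses
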